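import Pool.Agent.Lib.MP_f61260_nt.Bd.LenEx

set_option autoImplicit false

namespace Pool.Agent.Results.MP_f61260_nt.BoundedLength

/-- The bound `h(α) ≥ c / deg P` for roots `α`, outside the division group, of polynomials `P` with
at most `L` terms `β η X ^ t`: `η` in the division group, `β` of degree at most `L` over the field
generated by a fixed algebraic number, the division points of `Γ` at a finite set of primes, one
arbitrary element `z` of the division group and all cyclotomic numbers of degree at most `L`. -/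
theorem result :
    ∀ (S : Finset ℕ) (Γ : Subgroup ℂˣ), Γ.FG → (∀ g ∈ Γ, IsAlgebraic ℚ (g : ℂ)) →
      ∀ θ : ℂ, IsAlgebraic ℚ θ → ∀ L : ℕ,
      ∃ c : ℝ, 0 < c ∧ ∀ z ∈ {z : ℂ | z ≠ 0 ∧ ∃ n : ℕ, 1 ≤ n ∧ ∃ g ∈ Γ, (g : ℂ) = z ^ n},
        ∀ α : ℂ, α ≠ 0 → α ∉ {z : ℂ | z ≠ 0 ∧ ∃ n : ℕ, 1 ≤ n ∧ ∃ g ∈ Γ, (g : ℂ) = z ^ n} →
        ∀ (β η : Fin L → ℂ) (t : Fin L → ℕ),
        (∀ j, IsAlgebraic ℚ (β j) ∧ (minpoly (IntermediateField.adjoin ℚ ({θ, z} ∪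
          {y : ℂ | ∃ n : ℕ, 1 ≤ n ∧ n.primeFactors ⊆ S ∧ ∃ g ∈ Γ, (g : ℂ) = y ^ n} ∪
          {u : ℂ | u ∈ IntermediateField.adjoin ℚ {ζ : ℂ | ∃ n : ℕ, 1 ≤ n ∧ ζ ^ n = 1} ∧
            (minpoly ℚ u).natDegree ≤ L})) (β j)).natDegree ≤ L) →
        (∀ j, η j ∈ {z : ℂ | z ≠ 0 ∧ ∃ n : ℕ, 1 ≤ n ∧ ∃ g ∈ Γ, (g : ℂ) = z ^ n}) →
        ∀ P : Polynomial ℂ, P = ∑ j, Polynomial.C (β j * η j) * Polynomial.X ^ t j → P ≠ 0 →
        P.eval α = 0 → ∀ f : Polynomial ℤ, Irreducible f → Polynomial.aeval α f = 0 →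
          c / (P.natDegree : ℝ) ≤
            Real.log (Polynomial.mahlerMeasure (f.map (Int.castRingHom ℂ))) / (f.natDegree : ℝ) :=
  Pool.Agent.Lib.MP_f61260_nt.length_bound

/-- Every polynomial over the field generated by the division group has such a form, for some `L`
and with rational `β`. -/
theorem exists_length :
    ∀ Γ : Subgroup ℂˣ, (∀ g ∈ Γ, IsAlgebraic ℚ (g : ℂ)) →
      ∀ Q : Polynomial (IntermediateField.adjoin ℚ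
        {z : ℂ | z ≠ 0 ∧ ∃ n : ℕ, 1 ≤ n ∧ ∃ g ∈ Γ, (g : ℂ) = z ^ n}),
      ∃ (L : ℕ) (β : Fin L → ℚ) (η : Fin L → ℂ) (t : Fin L → ℕ),
        (∀ j, η j ∈ {z : ℂ | z ≠ 0 ∧ ∃ n : ℕ, 1 ≤ n ∧ ∃ g ∈ Γ, (g : ℂ) = z ^ n}) ∧
        Q.map (algebraMap _ ℂ) = ∑ j, Polynomial.C (β j * η j) * Polynomial.X ^ t j :=
  Pool.Agent.Lib.MP_f61260_nt.exists_length

end Pool.Agent.Results.MP_f61260_nt.BoundedLength
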