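import Pool.Agent.Lib.MP_f61260_nt.Pr.Crit

set_option autoImplicit false

namespace Pool.Agent.Results.MP_f61260_nt.PrimitiveTower

/-- Height lower bound along a tower `F 0 ⊆ F 1 ⊆ ⋯ ⊆ F t` above the field generated by all roots
of unity and all division points of `Γ` of order dividing `n s`, with `s` composed of primes from
`S`. Only the step `i ≥ j` (there is at most one) at which `α η` loses its last independent
conjugate matters: its Galois group acts tamely on the roots, or its base field has large degree.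
The bound saves a power of `N`, a lower bound for the degrees over `F j` of the powers of `α η`. -/
theorem result :
    ∀ (S : Finset ℕ) (Γ : Subgroup ℂˣ), Γ.FG → (∀ g ∈ Γ, IsAlgebraic ℚ (g : ℂ)) →
      ∀ G : Set ℂ, G = {z : ℂ | z ≠ 0 ∧ ∃ k : ℕ, 1 ≤ k ∧ ∃ g ∈ Γ, (g : ℂ) = z ^ k} →
      ∀ m : ℕ, ∃ c : ℝ, 0 < c ∧ ∃ δ : ℝ, 0 < δ ∧ ∃ κ : ℕ, ∀ n : ℕ, 1 ≤ n →
        ∀ (θ : ℕ → ℂ) (F : ℕ → IntermediateField ℚ ℂ) (d : ℕ → ℕ), (∀ i, IsAlgebraic ℚ (θ i)) →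
        F 0 = IntermediateField.adjoin ℚ {z : ℂ | ∃ s : ℕ, 1 ≤ s ∧
          (z ^ s = 1 ∨ (s.primeFactors ⊆ S ∧ ∃ g ∈ Γ, (g : ℂ) = z ^ (n * s)))} →
        (∀ i, F (i + 1) = IntermediateField.adjoin ℚ (insert (θ i) (F i : Set ℂ))) →
        (∀ i, d i = (minpoly (F i) (θ i)).natDegree) →
        ∀ α : ℂ, α ≠ 0 → α ∉ G → ∀ η ∈ G, ∀ j t : ℕ, j ≤ t → α * η ∈ F t →
        ∀ N : ℕ, 1 ≤ N → (∀ e : ℕ, 1 ≤ e → N ≤ (minpoly (F j) ((α * η) ^ e)).natDegree) →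
        (∀ i, j ≤ i → i < t →
          (∃ β : ℂ, Polynomial.aeval β (minpoly (F i) (α * η)) = 0 ∧ β / α ∉ G ∧ β * α ∉ G) →
          (∀ β : ℂ, Polynomial.aeval β (minpoly (F (i + 1)) (α * η)) = 0 →
            β / α ∈ G ∨ β * α ∈ G) →
          Pool.Agent.Lib.MP_f61260_nt.Tame m (minpoly (F i) (θ i)).Gal
            ((minpoly (F i) (θ i)).rootSet (minpoly (F i) (θ i)).SplittingField) ∨
          N * Real.log (3 * d i) ^ κ ≤ (∏ l ∈ Finset.range i, d l : ℕ)) →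
        ∀ f : Polynomial ℤ, Irreducible f → Polynomial.aeval α f = 0 →
          c * (N : ℝ) ^ δ / ((∏ i ∈ Finset.range t, d i : ℕ) *
              Real.log (3 * (n * (∏ i ∈ Finset.range j, d i : ℕ))) ^ κ)
            ≤ Real.log (Polynomial.mahlerMeasure (f.map (Int.castRingHom ℂ))) / (f.natDegree : ℝ) :=
  Pool.Agent.Lib.MP_f61260_nt.crit_tower

/-- Consequence: the bound `c N ^ δ / (D (log 3 n) ^ κ)` with `D` the degree of `α` over the base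
field holds unless some primitive step inside `F(α)` is not tame and has a small base. -/
theorem dichotomy :
    ∀ (S : Finset ℕ) (Γ : Subgroup ℂˣ), Γ.FG → (∀ g ∈ Γ, IsAlgebraic ℚ (g : ℂ)) →
      ∀ G : Set ℂ, G = {z : ℂ | z ≠ 0 ∧ ∃ k : ℕ, 1 ≤ k ∧ ∃ g ∈ Γ, (g : ℂ) = z ^ k} →
      ∀ m : ℕ, ∃ c : ℝ, 0 < c ∧ ∃ δ : ℝ, 0 < δ ∧ ∃ κ : ℕ, ∀ n : ℕ, 1 ≤ n →
        ∀ F : IntermediateField ℚ ℂ, F = IntermediateField.adjoin ℚ {z : ℂ | ∃ s : ℕ, 1 ≤ s ∧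
          (z ^ s = 1 ∨ (s.primeFactors ⊆ S ∧ ∃ g ∈ Γ, (g : ℂ) = z ^ (n * s)))} →
        ∀ α : ℂ, α ≠ 0 → α ∉ G → ∀ N : ℕ, 1 ≤ N →
        (∀ e : ℕ, 1 ≤ e → N ≤ (minpoly F (α ^ e)).natDegree) →
        ∀ f : Polynomial ℤ, Irreducible f → Polynomial.aeval α f = 0 →
          c * (N : ℝ) ^ δ / ((minpoly F α).natDegree * Real.log (3 * n) ^ κ)
            ≤ Real.log (Polynomial.mahlerMeasure (f.map (Int.castRingHom ℂ))) / (f.natDegree : ℝ) ∨
          ∃ (K : IntermediateField ℚ ℂ) (θ : ℂ), F ≤ K ∧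
            IntermediateField.adjoin ℚ (insert θ (K : Set ℂ)) ≤
              IntermediateField.adjoin ℚ (insert α (F : Set ℂ)) ∧
            MulAction.IsPreprimitive (minpoly K θ).Gal
              ((minpoly K θ).rootSet (minpoly K θ).SplittingField) ∧
            ¬ Pool.Agent.Lib.MP_f61260_nt.Tame m (minpoly K θ).Gal
              ((minpoly K θ).rootSet (minpoly K θ).SplittingField) ∧
            (IntermediateField.relfinrank F K : ℝ) <
              N * Real.log (3 * (minpoly K θ).natDegree) ^ κ :=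
  Pool.Agent.Lib.MP_f61260_nt.crit_split

/-- Every algebraic `α` has a level `n` at which its degree over the base field equals its degree
over the field generated by the whole division group. -/
theorem level :
    ∀ (S : Finset ℕ) (Γ : Subgroup ℂˣ) (G : Set ℂ),
      G = {z : ℂ | z ≠ 0 ∧ ∃ k : ℕ, 1 ≤ k ∧ ∃ g ∈ Γ, (g : ℂ) = z ^ k} →
      ∀ α : ℂ, IsAlgebraic ℚ α → ∃ n : ℕ, 1 ≤ n ∧
        (minpoly (IntermediateField.adjoin ℚ {z : ℂ | ∃ s : ℕ, 1 ≤ s ∧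
          (z ^ s = 1 ∨ (s.primeFactors ⊆ S ∧ ∃ g ∈ Γ, (g : ℂ) = z ^ (n * s)))}) α).natDegree =
        (minpoly (IntermediateField.adjoin ℚ G) α).natDegree :=
  Pool.Agent.Lib.MP_f61260_nt.crit_level

/-- The earlier form (`N = 1`, a hypothesis at every step from `j` on), derived from `result`. -/
theorem earlier :
    ∀ (S : Finset ℕ) (Γ : Subgroup ℂˣ), Γ.FG → (∀ g ∈ Γ, IsAlgebraic ℚ (g : ℂ)) →
      ∀ G : Set ℂ, G = {z : ℂ | z ≠ 0 ∧ ∃ k : ℕ, 1 ≤ k ∧ ∃ g ∈ Γ, (g : ℂ) = z ^ k} →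
      ∀ m : ℕ, ∃ c : ℝ, 0 < c ∧ ∃ κ : ℕ, ∀ n : ℕ, 1 ≤ n →
        ∀ (θ : ℕ → ℂ) (F : ℕ → IntermediateField ℚ ℂ) (d : ℕ → ℕ), (∀ i, IsAlgebraic ℚ (θ i)) →
        F 0 = IntermediateField.adjoin ℚ {z : ℂ | ∃ s : ℕ, 1 ≤ s ∧
          (z ^ s = 1 ∨ (s.primeFactors ⊆ S ∧ ∃ g ∈ Γ, (g : ℂ) = z ^ (n * s)))} →
        (∀ i, F (i + 1) = IntermediateField.adjoin ℚ (insert (θ i) (F i : Set ℂ))) →
        (∀ i, d i = (minpoly (F i) (θ i)).natDegree) →
        ∀ α : ℂ, α ≠ 0 → α ∉ G → ∀ η ∈ G, ∀ j t : ℕ, j ≤ t → α * η ∈ F t →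
        (∀ i, j ≤ i → i < t → Pool.Agent.Lib.MP_f61260_nt.Tame m (minpoly (F i) (θ i)).Gal
            ((minpoly (F i) (θ i)).rootSet (minpoly (F i) (θ i)).SplittingField) ∨
          Real.log (3 * d i) ^ κ ≤ (∏ l ∈ Finset.range i, d l : ℕ) ∨
          ∃ β : ℂ, Polynomial.aeval β
              (minpoly (IntermediateField.adjoin ℚ ((F (i + 1) : Set ℂ) ∪ G)) α) = 0 ∧
            β / α ∉ G ∧ β * α ∉ G) →
        ∀ f : Polynomial ℤ, Irreducible f → Polynomial.aeval α f = 0 →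
          c / ((∏ i ∈ Finset.range t, d i : ℕ) *
              Real.log (3 * (n * (∏ i ∈ Finset.range j, d i : ℕ))) ^ κ)
            ≤ Real.log (Polynomial.mahlerMeasure (f.map (Int.castRingHom ℂ))) / (f.natDegree : ℝ) :=
  Pool.Agent.Lib.MP_f61260_nt.prim_tower

end Pool.Agent.Results.MP_f61260_nt.PrimitiveTower
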