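import Pool.Agent.Lib.MP_f61260_nt.Ring3

set_option autoImplicit false

namespace Pool.Agent.Results.MP_f61260_nt.RingForm

/-- Height lower bound for numbers whose relative norm is, up to a defect `ε` at each prime, a point
of the projective line over the ring generated by `Θ` and the whole division group of `Γ`. -/
theorem result :
    ∀ (Γ : Subgroup ℂˣ), Γ.FG → (∀ g ∈ Γ, IsAlgebraic ℚ (g : ℂ)) →
      ∀ Θ : Finset ℂ, (∀ θ ∈ Θ, IsAlgebraic ℚ θ) →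
      ∀ G : Set ℂ, G = {z : ℂ | z ≠ 0 ∧ ∃ n : ℕ, 1 ≤ n ∧ ∃ g ∈ Γ, (g : ℂ) = z ^ n} →
      ∀ R : Subring ℂ, R = Subring.closure ((Θ : Set ℂ) ∪ G) →
      ∃ c : ℝ, 0 < c ∧ ∀ (K : IntermediateField ℚ ℂ) (α ν : ℂ) (ε : ℝ), α ≠ 0 →
        ν = ((minpoly K α).coeff 0 : K) → ν ∉ G → 0 ≤ ε →
        (∀ q : ℕ, q.Prime → ∃ u ∈ R, ∃ w ∈ R, ν * u ∈ R ∧ ν * w ∈ R ∧ u + ν * w ≠ 0 ∧
          padicValRat q ((minpoly ℚ (u + ν * w)).coeff 0) * Real.log q ≤
            ε * (minpoly ℚ (u + ν * w)).natDegree) →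
        ∀ f : Polynomial ℤ, Irreducible f → Polynomial.aeval α f = 0 →
          (c - ε) / (minpoly K α).natDegree ≤
            Real.log (Polynomial.mahlerMeasure (f.map (Int.castRingHom ℂ))) / (f.natDegree : ℝ) :=
  Pool.Agent.Lib.MP_f61260_nt.ring_bound

end Pool.Agent.Results.MP_f61260_nt.RingForm
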