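import Pool.Agent.Lib.MP_f61260_nt.Ab.Deg

set_option autoImplicit false

namespace Pool.Agent.Results.MP_f61260_nt.SharpAbelian

open Pool.Agent.Lib.MP_f61260_nt

/-- The trivial group, every degree `D`, relative norm not a root of unity. Let `F` be the field
generated by all roots of unity and `t < 0.164`. A number `ν`, neither zero nor a root of unity, is
the constant term of the minimal polynomial over `F` of an algebraic `α` of degree `D` over `F` with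
`D * h α ≤ t` exactly when `log 7 / 12 ≤ t` and `ν` is a root of `7 X^12 - 13 X^6 + 7` up to a root
of unity. -/
theorem result (ν : ℂ) (D : ℕ) (t : ℝ) (hD : 1 ≤ D) (ht : t < 41 / 250) :
    (ν ≠ 0 ∧ (∀ n : ℕ, 1 ≤ n → ν ^ n ≠ 1) ∧ ∃ α : ℂ, IsAlgebraic ℚ α ∧
      (minpoly (IntermediateField.adjoin ℚ {z : ℂ | ∃ n : ℕ, 1 ≤ n ∧ z ^ n = 1}) α).natDegree = D ∧
      ((minpoly (IntermediateField.adjoin ℚ {z : ℂ | ∃ n : ℕ, 1 ≤ n ∧ z ^ n = 1}) α).coeff 0 : ℂ)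
        = ν ∧
      D * NumberField.absLogHeight₁ α ≤ t) ↔
    (Real.log 7 / 12 ≤ t ∧ ∃ ζ : ℂ, (∃ n : ℕ, 1 ≤ n ∧ ζ ^ n = 1) ∧
      7 * (ζ * ν) ^ 12 - 13 * (ζ * ν) ^ 6 + 7 = 0) := by
  refine ⟨fun ⟨h0, h1, h⟩ => (Ab.bottomD h0 h1 hD ht).1 h, fun h => ?_⟩
  obtain ⟨-, ζ, ⟨n, a1, a2⟩, a3⟩ := id h
  obtain ⟨-, h0, h1, -⟩ := Ab.back a1 a2 a3
  exact ⟨h0, h1, (Ab.bottomD h0 h1 hD ht).2 h⟩

/-- Degree one: an element of the field generated by all roots of unity, neither zero nor a root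
of unity, has height `t < 0.164` exactly when `t = log 7 / 12` and it is a root of
`7 X^12 - 13 X^6 + 7` up to a root of unity. -/
theorem degree_one (α : ℂ) (t : ℝ) :
    (α ∈ IntermediateField.adjoin ℚ {z : ℂ | ∃ n : ℕ, 1 ≤ n ∧ z ^ n = 1} ∧ α ≠ 0 ∧
      (∀ n : ℕ, 1 ≤ n → α ^ n ≠ 1) ∧ NumberField.absLogHeight₁ α = t ∧ t < 41 / 250) ↔
    (t = Real.log 7 / 12 ∧ ∃ ζ : ℂ, (∃ n : ℕ, 1 ≤ n ∧ ζ ^ n = 1) ∧
      7 * (ζ * α) ^ 12 - 13 * (ζ * α) ^ 6 + 7 = 0) := by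
  have up : (∃ ζ : ℂ, (∃ n : ℕ, 1 ≤ n ∧ ζ ^ n = 1) ∧
      7 * (ζ * α) ^ 12 - 13 * (ζ * α) ^ 6 + 7 = 0) →
      α ∈ IntermediateField.adjoin ℚ {z : ℂ | ∃ n : ℕ, 1 ≤ n ∧ z ^ n = 1} ∧ α ≠ 0 ∧
        (∀ n : ℕ, 1 ≤ n → α ^ n ≠ 1) ∧ NumberField.absLogHeight₁ α ≤ Real.log 7 / 12 := fun h => by
    obtain ⟨h0, h1, β, b1, b2, b3, b4⟩ := (result α 1 _ le_rfl Ab.lg2).2 ⟨le_rfl, h⟩
    have := Ab.norm_le (IntermediateField.adjoin ℚ {z : ℂ | ∃ n : ℕ, 1 ≤ n ∧ z ^ n = 1})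
      b1.isIntegral
    rw [b2, b3] at this
    exact ⟨b3 ▸ Subtype.property _, h0, h1, this.trans b4⟩
  constructor
  · rintro ⟨h1, h2, h3, rfl, h5⟩
    obtain ⟨a1, a2⟩ := (result α 1 _ le_rfl h5).1 ⟨h2, h3, -α, Ab.deg_one h1⟩
    exact ⟨le_antisymm (up a2).2.2.2 a1, a2⟩
  · rintro ⟨rfl, h⟩
    obtain ⟨h1, h2, h3, h4⟩ := up h
    exact ⟨h1, h2, h3, le_antisymm h4 ((result α 1 _ le_rfl (h4.trans_lt Ab.lg2)).1
      ⟨h2, h3, -α, Ab.deg_one h1⟩).1, Ab.lg2⟩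

/-- In each degree `D` the least value of `D * h α` is `log 7 / 12`, among the `α` whose norm to
the field generated by all roots of unity is neither zero nor a root of unity. -/
theorem least (D : ℕ) (hD : 1 ≤ D) :
    IsLeast {s : ℝ | ∃ α ν : ℂ, IsAlgebraic ℚ α ∧ ν ≠ 0 ∧ (∀ n : ℕ, 1 ≤ n → ν ^ n ≠ 1) ∧
      (minpoly (IntermediateField.adjoin ℚ {z : ℂ | ∃ n : ℕ, 1 ≤ n ∧ z ^ n = 1}) α).natDegree = D ∧
      ((minpoly (IntermediateField.adjoin ℚ {z : ℂ | ∃ n : ℕ, 1 ≤ n ∧ z ^ n = 1}) α).coeff 0 : ℂ)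
        = ν ∧ s = D * NumberField.absLogHeight₁ α} (Real.log 7 / 12) := by
  have low : ∀ s ∈ {s : ℝ | ∃ α ν : ℂ, IsAlgebraic ℚ α ∧ ν ≠ 0 ∧ (∀ n : ℕ, 1 ≤ n → ν ^ n ≠ 1) ∧
      (minpoly (IntermediateField.adjoin ℚ {z : ℂ | ∃ n : ℕ, 1 ≤ n ∧ z ^ n = 1}) α).natDegree = D ∧
      ((minpoly (IntermediateField.adjoin ℚ {z : ℂ | ∃ n : ℕ, 1 ≤ n ∧ z ^ n = 1}) α).coeff 0 : ℂ)
        = ν ∧ s = D * NumberField.absLogHeight₁ α}, Real.log 7 / 12 ≤ s := by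
    rintro s ⟨α, ν, a1, a2, a3, a4, a5, a6⟩
    rcases lt_or_ge s (41 / 250) with h | h
    · exact ((result ν D s hD h).1 ⟨a2, a3, α, a1, a4, a5, a6.ge⟩).1
    · exact Ab.lg2.le.trans h
  obtain ⟨a, -, h⟩ := Ab.sharp
  obtain ⟨h1, h2, α, h3, h4, h5, h6⟩ := (result a D _ hD Ab.lg2).2
    ⟨le_rfl, 1, ⟨1, le_rfl, one_pow 1⟩, by rwa [one_mul]⟩
  exact ⟨⟨α, a, h3, h1, h2, h4, h5, le_antisymm (low _ ⟨α, a, h3, h1, h2, h4, h5, rfl⟩) h6⟩, low⟩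

end Pool.Agent.Results.MP_f61260_nt.SharpAbelian
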